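import Pool.Agent.N436.DF.Stm2

/-!
# Project DF (helper436), part DG/4: the step of the key lemma (helper314)
-/

namespace Pool.Agent.N314.DF

open Finset Pool.Agent.N436.DF

variable {V : Type} [DecidableEq V]

/-- potential of `H` with one unit of colour 1 at `q` removed, for sets without `w` -/
theorem rho_H2 (hadd : S_addm) (hlow : S_low) (P : Par) (H : Hub V) (q w : V) (hok : Ok P H)
    (hqw : q ≠ w) (hm : 1 ≤ H.m q w) (hc : 0 ≤ H.c true q) (Y : Finset V) (hw : w ∉ Y) :
    rho P (addm (low H true q) (-1) q w) Y = rho P H Y - (if q ∈ Y then 2 * P.a else 0) := by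
  obtain ⟨hok1, -⟩ := hlow V P H true q hok
  obtain ⟨-, hrho, -⟩ := hadd V P (low H true q) (-1) q w hok1 hqw (by
    show 0 ≤ H.m q w + -1
    linarith)
  rw [hrho Y, if_neg (fun h => hw h.2), sub_zero]
  have hwt : ∀ v, wt P (low H true q) v = wt P H v - (if v = q then P.a else 0) := by
    intro v
    unfold wt low
    by_cases hv : v = q
    · subst hv
      have : max (-1) (H.c true v - 1) = H.c true v - 1 := max_eq_right (by linarith)
      simp [this]
      ring
    · simp [hv]
  have hs : ∑ v ∈ Y, wt P (low H true q) v = ∑ v ∈ Y, wt P H v - (if q ∈ Y then P.a else 0) := by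
    rw [Finset.sum_congr rfl (fun v _ => hwt v), Finset.sum_sub_distrib, Finset.sum_ite_eq']
  have he : ∑ u ∈ Y, ∑ v ∈ Y, ew P (low H true q) u v = ∑ u ∈ Y, ∑ v ∈ Y, ew P H u v := rfl
  unfold rho
  rw [hs, he]
  by_cases hq : q ∈ Y
  · simp only [hq, if_true]; ring
  · simp only [hq, if_false]; ring

theorem m_H2 (H : Hub V) (q w : V) (hqw : q ≠ w) (v : V) :
    (addm (low H true q) (-1) q w).m w v = H.m w v - (if v = q then 1 else 0) := by
  unfold addm low
  by_cases hv : v = q
  · subst hv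
    simp
    ring
  · simp [hv, hqw.symm]

theorem m_H2' (H : Hub V) (q w : V) (hqw : q ≠ w) (v : V) :
    (addm (low H true q) (-1) q w).m v w = H.m v w - (if v = q then 1 else 0) := by
  unfold addm low
  by_cases hv : v = q
  · subst hv
    simp
    ring
  · simp [hv, hqw.symm]

theorem kle (hlow : S_low) (hadd : S_addm) (hkc : S_killCol) (hkr : S_killRho)
    (htr : S_trPair) : S_KLe := by
  intro V _ P H T w θ s δ q hSt hIH hqT hmwq hcq hA
  have hqw : q ≠ w := fun h => hSt.hw (h ▸ hqT)
  have hmqw : 1 ≤ H.m q w := by rw [hSt.ok.msymm]; exact hmwq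
  obtain ⟨hok1, -⟩ := hlow V P H true q hSt.ok
  obtain ⟨hok2, -⟩ := hadd V P (low H true q) (-1) q w hok1 hqw (by
    show 0 ≤ H.m q w + -1
    linarith)
  set H2 := addm (low H true q) (-1) q w with hH2
  have hr2 : H2.r = H.r := rfl
  have hcf2 : ∀ v, H2.c false v = H.c false v := by
    intro v
    show (if false = true ∧ v = q then max (-1) (H.c false v - 1) else H.c false v) = _
    simp
  have hctw : H2.c true w = -1 := by
    show (if true = true ∧ w = q then max (-1) (H.c true w - 1) else H.c true w) = _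
    rw [if_neg (fun h => hqw h.2.symm)]
    exact hSt.cw
  have hcle : ∀ i v, H2.c i v ≤ H.c i v := by
    intro i v
    show (if i = true ∧ v = q then max (-1) (H.c i v - 1) else H.c i v) ≤ _
    split_ifs with h
    · have := hSt.ok.c_ge i v
      exact max_le this (by linarith)
    · exact le_rfl
  have hrho2 : ∀ Y : Finset V, w ∉ Y →
      rho P H2 Y = rho P H Y - (if q ∈ Y then 2 * P.a else 0) :=
    fun Y hY => rho_H2 hadd hlow P H q w hSt.ok hqw hmqw hcq Y hY
  have hF1 : ∀ Y : Finset V, w ∉ Y →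
      F0 P H2 θ Y = F0 P H θ Y - (if q ∈ Y then 2 * P.a else 0) := by
    intro Y hY
    unfold F0
    rw [hrho2 Y hY]; ring
  have hwsub : ∀ Y : Finset V, Y ⊆ T → w ∉ Y := fun Y hY h => hSt.hw (hY h)
  have hb0 : 0 < P.b := by linarith [P.hb]
  have hd0 : 0 < P.d := by linarith [P.hd]
  have ha0 : 0 < P.a := by linarith [P.hab]
  have hab := P.hab
  -- the minimiser
  obtain ⟨V0, hV0m, hV0min⟩ := Finset.exists_min_image T.powerset (fun Y => F0 P H2 θ Y)
    ⟨∅, Finset.empty_mem_powerset T⟩
  rw [Finset.mem_powerset] at hV0m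
  have hmin : ∀ Y, Y ⊆ T → F0 P H2 θ V0 ≤ F0 P H2 θ Y :=
    fun Y hY => hV0min Y (Finset.mem_powerset.mpr hY)
  have hempty : F0 P H2 θ ∅ = 0 := by
    unfold F0 rho; simp
  have hβ : F0 P H2 θ V0 ≤ 0 := by
    have := hmin ∅ (Finset.empty_subset _)
    rwa [hempty] at this
  -- colour V0
  have hHyp : Hyp P H2 V0 := by
    intro Y hY hYne
    have hYT : Y ⊆ T := hY.trans hV0m
    have hθ : 0 ≤ ∑ v ∈ Y, θ v := Finset.sum_nonneg (fun v _ => hSt.θnn v)
    have h1 : F0 P H2 θ Y ≤ rho P H2 Y := by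
      unfold F0; linarith
    have h2 := hF1 Y (hwsub Y hYT)
    by_cases hq : q ∈ Y
    · have h3 := hA Y hYT hq
      rw [if_pos hq] at h2
      linarith
    · have h3 := hSt.nn Y hYT
      rw [if_neg hq] at h2
      linarith
  obtain ⟨f0, p0, hCol0⟩ := hIH H2 V0 hok2 hr2 (hV0m.trans (Finset.subset_insert w T)) hHyp
  obtain ⟨hokk, hkrho, hknn, -⟩ := hkr V P H2 V0 f0 hok2
  have hn1 : 0 ≤ pr H2 V0 f0 true w := (hknn w).2.2.1
  have hn2 : 0 ≤ pr H2 V0 f0 false w := (hknn w).2.2.2.1
  have hsav : ∀ v, 0 ≤ sav P H2 V0 f0 v := fun v => (hknn v).2.2.2.2.2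
  have hwV0 : w ∉ V0 := hwsub V0 hV0m
  have hn12 : pr H2 V0 f0 true w + pr H2 V0 f0 false w = ∑ x ∈ V0, H2.m w x := by
    unfold pr
    have h := Finset.sum_filter_add_sum_filter_not V0 (fun x => f0 x = true) (fun x => H2.m x w)
    have h' : (V0.filter (fun x => ¬ f0 x = true)) = V0.filter (fun x => f0 x = false) := by
      apply Finset.filter_congr
      intro x _
      simp
    rw [h'] at h
    rw [h]
    exact Finset.sum_congr rfl (fun x _ => hok2.msymm x w)
  set θ' : V → ℤ := fun v => θ v + sav P H2 V0 f0 v with hθ'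
  have hF' : ∀ Y, Y ⊆ T \ V0 →
      F0 P (kill H2 V0 f0) θ' Y = F0 P H2 θ (Y ∪ V0) - F0 P H2 θ V0 := by
    intro Y hY
    have hdisj : Disjoint Y V0 :=
      Finset.disjoint_of_subset_left hY Finset.sdiff_disjoint
    unfold F0
    rw [hkrho Y hdisj, Finset.sum_union hdisj, hθ', Finset.sum_add_distrib]
    ring
  have hTV : T \ V0 ∪ V0 = T := Finset.sdiff_union_of_subset hV0m
  have hF'T : F0 P (kill H2 V0 f0) θ' (T \ V0) = F0 P H θ T - 2 * P.a - F0 P H2 θ V0 := by
    rw [hF' _ (Finset.Subset.refl _), hTV, hF1 T hSt.hw, if_pos hqT]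
  have hmsum : ∀ Z : Finset V, ∑ v ∈ Z, H2.m w v = ∑ v ∈ Z, H.m w v - (if q ∈ Z then 1 else 0) := by
    intro Z
    rw [Finset.sum_congr rfl (fun v _ => m_H2 H q w hqw v), Finset.sum_sub_distrib,
      Finset.sum_ite_eq']
  have hsumT : ∑ v ∈ T \ V0, H2.m w v
      = ∑ v ∈ T, H.m w v - 1 - (pr H2 V0 f0 true w + pr H2 V0 f0 false w) := by
    have h1 := Finset.sum_sdiff (f := fun v => H2.m w v) hV0m
    have h2 := hmsum T
    rw [if_pos hqT] at h2
    linarith
  refine ⟨kill H2 V0 f0, T \ V0, θ', s - pr H2 V0 f0 true w,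
    δ + F0 P H2 θ V0 - 2 * P.d * pr H2 V0 f0 true w - 2 * P.a * pr H2 V0 f0 false w, ?_,
    Finset.sdiff_subset, rfl, ?_, ?_⟩
  · refine ⟨hokk, fun h => hSt.hw (Finset.sdiff_subset h), ?_, ?_, ?_, ?_, ?_, ?_, ?_, ?_, ?_⟩
    · show (if 0 < nr H2 V0 f0 true w then (-1 : ℤ) else
        max (-1) (H2.c true w - pr H2 V0 f0 (!true) w)) = -1
      split_ifs with h
      · rfl
      · rw [hctw]
        exact max_eq_left (by simp only [Bool.not_true]; linarith)
    · intro x hx
      exact hSt.rw0 x (Finset.sdiff_subset hx)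
    · intro v
      exact add_nonneg (hSt.θnn v) (hsav v)
    · intro Y hY
      rw [hF' Y hY]
      have := hmin (Y ∪ V0) (Finset.union_subset (hY.trans Finset.sdiff_subset) hV0m)
      linarith
    · show s - pr H2 V0 f0 true w ≤ (if 0 < nr H2 V0 f0 false w then (-1 : ℤ) else
        max (-1) (H2.c false w - pr H2 V0 f0 (!false) w))
      have hnr : nr H2 V0 f0 false w = 0 := by
        unfold nr
        apply Finset.sum_eq_zero
        intro x hx
        have hx' := hV0m (Finset.mem_filter.mp hx).1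
        rw [hok2.rsymm x w]
        exact hSt.rw0 x hx'
      rw [hnr, if_neg (lt_irrefl _), hcf2]
      have := hSt.cap
      refine le_trans ?_ (le_max_right _ _)
      simp only [Bool.not_false]
      linarith
    · intro Y hY
      have hYsub : Y ⊆ T \ V0 := hY.1
      rw [hF'T, hF' Y hYsub]
      have hYT : Y ∪ V0 ⊆ T := Finset.union_subset (hYsub.trans Finset.sdiff_subset) hV0m
      have hYT' : Y ∪ V0 ⊂ T := by
        refine ⟨hYT, fun h => hY.2 ?_⟩
        intro x hx
        have hx1 := Finset.mem_sdiff.mp hx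
        rcases Finset.mem_union.mp (h hx1.1) with h1 | h1
        · exact h1
        · exact absurd h1 hx1.2
      have h1 := hSt.prop (Y ∪ V0) hYT'
      have hset : (T \ V0) \ Y = T \ (Y ∪ V0) := by
        ext x; simp only [Finset.mem_sdiff, Finset.mem_union]; tauto
      have h2 := hF1 (Y ∪ V0) (hwsub _ hYT)
      have h3 := hmsum (T \ (Y ∪ V0))
      show F0 P H θ T - 2 * P.a - F0 P H2 θ V0
          + 2 * P.a * (1 - ∑ v ∈ (T \ V0) \ Y, H2.m w v) ≤ _
      rw [hset, h3, h2]
      by_cases hq : q ∈ Y ∪ V0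
      · rw [if_pos hq, if_neg (fun h => (Finset.mem_sdiff.mp h).2 hq)]
        linarith
      · rw [if_neg hq, if_pos (Finset.mem_sdiff.mpr ⟨hqT, hq⟩)]
        linarith
    · show F0 P (kill H2 V0 f0) θ' (T \ V0) + 2 * P.b * (s - pr H2 V0 f0 true w)
        - 2 * P.a * ∑ v ∈ T \ V0, H2.m w v = _
      rw [hF'T, hsumT]
      have h1 := hSt.tot
      rw [hab] at h1 ⊢
      linarith
    · have h1 := hSt.hδ
      have h2 : 0 ≤ P.d * pr H2 V0 f0 true w := mul_nonneg hd0.le hn1
      have h3 : 0 ≤ P.a * pr H2 V0 f0 false w := mul_nonneg ha0.le hn2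
      linarith
    · have h1 := hSt.hδb
      have h2 : 0 ≤ P.d * pr H2 V0 f0 true w := mul_nonneg hd0.le hn1
      have h3 : 0 ≤ P.a * pr H2 V0 f0 false w := mul_nonneg ha0.le hn2
      linarith
  · show ∑ v ∈ T \ V0, H2.m w v < _
    rw [hsumT]
    linarith
  · intro hC
    have hins : insert w T \ V0 = insert w (T \ V0) :=
      Finset.insert_sdiff_of_notMem T hwV0
    rw [← hins] at hC
    obtain ⟨f', p', hCB, -⟩ := hkc V P H2 (insert w T) V0 f0 p0 hok2
      (hV0m.trans (Finset.subset_insert w T)) hCol0 hC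
    have hwI : w ∈ insert w T := Finset.mem_insert_self w T
    have hqI : q ∈ insert w T := Finset.mem_insert_of_mem hqT
    have hload : ∀ u, 0 ≤ load H2 (insert w T) f' p' u := by
      intro u
      unfold load
      apply Finset.sum_nonneg
      intro v _
      split_ifs
      · rcases hok2.r01 u v with h | h <;> rw [h] <;> norm_num
      · exact hCB.nn u v
    have hfw : f' w = false := by
      by_contra hne
      have hfw' : f' w = true := by simpa using hne
      have h1 := hCB.cap w hwI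
      rw [hfw', hctw] at h1
      linarith [hload w]
    by_cases hfq : f' q = true
    · obtain ⟨p'', hp''⟩ := htr V P H (insert w T) true q w f' p' hSt.ok hqI hwI hqw hfq hCB
      exact ⟨f', p'', hp''⟩
    · have hfq' : f' q = false := by simpa using hfq
      refine ⟨f', p', hCB.nn, ?_, ?_⟩
      · intro u hu v hv huv
        have h1 := hCB.pay u hu v hv huv
        have h2 : H2.m u v = H.m u v := by
          show (if (u = q ∧ v = w) ∨ (u = w ∧ v = q) then H.m u v + -1 else H.m u v) = _
          rw [if_neg]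
          rintro (⟨h, h'⟩ | ⟨h, h'⟩)
          · exact huv (by rw [h, h', hfq', hfw])
          · exact huv (by rw [h, h', hfq', hfw])
        rw [h2] at h1
        exact h1
      · intro u hu
        exact le_trans (hCB.cap u hu) (hcle (f' u) u)

end Pool.Agent.N314.DF
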